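import Pool.Agent.HV.Final

/-!
# A convex body, not centrally symmetric, whose volume-halving planes all halve the surface area
-/

set_option autoImplicit false

open MeasureTheory

namespace Pool.Agent.Results.MP_678b51_gt.HalvingPlanes

/-- There is a convex body `K` in `ℝ³` such that every closed half-space which contains half of the
volume of `K` contains half of the surface area (two-dimensional Hausdorff measure) of the boundary
of `K`, although `K` is not centrally symmetric. -/
theorem result : ∃ K : Set (EuclideanSpace ℝ (Fin 3)),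
    IsCompact K ∧ Convex ℝ K ∧ (interior K).Nonempty ∧
    0 < Measure.euclideanHausdorffMeasure 2 (frontier K) ∧
    Measure.euclideanHausdorffMeasure 2 (frontier K) < ⊤ ∧
    (∀ (ν : EuclideanSpace ℝ (Fin 3)) (τ : ℝ), ν ≠ 0 →
      volume (K ∩ {P | inner ℝ ν P ≤ τ}) = volume K / 2 →
      Measure.euclideanHausdorffMeasure 2 (frontier K ∩ {P | inner ℝ ν P ≤ τ}) =
        Measure.euclideanHausdorffMeasure 2 (frontier K) / 2) ∧
    ¬ ∃ c : EuclideanSpace ℝ (Fin 3), ∀ P, P ∈ K ↔ (2 : ℝ) • c - P ∈ K :=
  Pool.Agent.HV.main

end Pool.Agent.Results.MP_678b51_gt.HalvingPlanes
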